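import Pool.Agent.H91.LF.Defs2

/-! From linear independence over the rationals to integer coefficients. -/

set_option autoImplicit false

open Finset

namespace Pool.Agent.H66.LF

open Pool.Agent.H91.LF

lemma common_den {ι : Type} [Fintype ι] (c : ι → ℚ) :
    ∃ (N : ℕ) (z : ι → ℤ), 0 < N ∧ ∀ k, (N : ℚ) * c k = z k := by
  classical
  have h : ∀ k, ∃ z : ℤ, ((∏ i, (c i).den : ℕ) : ℚ) * c k = z := by
    intro k
    obtain ⟨q, hq⟩ := Finset.dvd_prod_of_mem (fun i => (c i).den) (Finset.mem_univ k)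
    refine ⟨q * (c k).num, ?_⟩
    rw [hq]
    push_cast
    have := Rat.den_mul_eq_num (c k)
    calc ((c k).den : ℚ) * q * c k = q * ((c k).den * c k) := by ring
      _ = q * (c k).num := by rw [this]
  choose z hz using h
  exact ⟨_, z, Finset.prod_pos (fun i _ => (c i).den_pos), hz⟩

theorem ind_main : StatementIND := by
  classical
  intro m r a b J j hj
  obtain ⟨f, hf, hle⟩ := Submodule.exists_le_ker_of_notMem hj
  set c : Fin (m + 2) → ℚ := fun k => f (Pi.single k 1) with hc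
  have hfc : ∀ x : Fin (m + 2) → ℚ, f x = ∑ k, x k * c k := by
    intro x
    conv_lhs => rw [← Finset.univ_sum_single x]
    rw [map_sum]
    refine Finset.sum_congr rfl (fun k _ => ?_)
    have : (Pi.single k (x k) : Fin (m + 2) → ℚ) = x k • Pi.single k 1 := by
      rw [← Pi.single_smul]; simp
    rw [this, map_smul, smul_eq_mul]
  have hfv : ∀ i, f (Fin.cons 1 (Fin.cons (a i : ℚ) (fun l => (b i l : ℚ))) : Fin (m + 2) → ℚ) =
      c 0 + a i * c 1 + ∑ l : Fin m, b i l * c l.succ.succ := by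
    intro i
    rw [hfc, Fin.sum_univ_succ, Fin.sum_univ_succ]
    simp only [Fin.cons_zero, Fin.cons_succ, one_mul]
    have e1 : c (Fin.succ 0) = c 1 := rfl
    rw [e1]
    ring
  obtain ⟨N, z, hN, hz⟩ := common_den c
  have hNq : (N : ℚ) ≠ 0 := by exact_mod_cast hN.ne'
  have key : ∀ i, ((z 1 * a i + z 0 + ∑ l : Fin m, z l.succ.succ * b i l : ℤ) : ℚ) =
      N * f (Fin.cons 1 (Fin.cons (a i : ℚ) (fun l => (b i l : ℚ))) : Fin (m + 2) → ℚ) := by
    intro i
    rw [hfv]
    push_cast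
    rw [← hz 1, ← hz 0, mul_add, mul_add, Finset.mul_sum]
    have : ∀ l : Fin m, (z l.succ.succ : ℚ) * b i l = N * (b i l * c l.succ.succ) := by
      intro l; rw [← hz]; ring
    rw [Finset.sum_congr rfl (fun l _ => this l)]
    ring
  have h0 : ∀ i, i ≠ j → J i → z 1 * a i + z 0 + ∑ l : Fin m, z l.succ.succ * b i l = 0 := by
    intro i hi hJ
    have h1 : f (Fin.cons 1 (Fin.cons (a i : ℚ) (fun l => (b i l : ℚ))) : Fin (m + 2) → ℚ) = 0 :=
      LinearMap.mem_ker.1 (hle (Submodule.subset_span ⟨i, hi, hJ, rfl⟩))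
    have h2 := key i
    rw [h1, mul_zero] at h2
    exact_mod_cast h2
  have h1 : z 1 * a j + z 0 + ∑ l : Fin m, z l.succ.succ * b j l ≠ 0 := by
    intro h
    have h2 := key j
    rw [h] at h2
    rw [Int.cast_zero, eq_comm, mul_eq_zero] at h2
    rcases h2 with h2 | h2
    · exact hNq h2
    · exact hf h2
  rcases le_total 0 (z 1) with hs | hs
  · refine ⟨(z 1).toNat, z 0, fun l => z l.succ.succ, ?_, ?_⟩
    · intro i hi hJ
      rw [Int.toNat_of_nonneg hs]
      exact h0 i hi hJ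
    · rw [Int.toNat_of_nonneg hs]
      exact h1
  · have hs' : 0 ≤ -z 1 := by omega
    have e : ∀ i, -z 1 * a i + -z 0 + ∑ l : Fin m, -z l.succ.succ * b i l =
        -(z 1 * a i + z 0 + ∑ l : Fin m, z l.succ.succ * b i l) := by
      intro i
      simp only [neg_mul, Finset.sum_neg_distrib]
      ring
    refine ⟨(-z 1).toNat, -z 0, fun l => -z l.succ.succ, ?_, ?_⟩
    · intro i hi hJ
      rw [Int.toNat_of_nonneg hs', e, h0 i hi hJ, neg_zero]
    · rw [Int.toNat_of_nonneg hs', e]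
      exact neg_ne_zero.2 h1

end Pool.Agent.H66.LF
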